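import Mathlib

/-!
# Automorphisms of the complex numbers

`rat_of_fixed` is proved (with two auxiliary theorems) in `Pool/Agent/Lib/MP_5d4057_al/HM/Aut.lean` and
`Pool/Agent/Lib/MP_5d4057_al/VB/DescZ.lean`: COPY these proofs (do not import).
`exists_rat_functional`: let `a ≠ 0` be a functional vanishing on `W` with the smallest number of nonzero
coordinates, one of them equal to `1`. For every automorphism `σ` the functional `σ a` also vanishes on `W`, so
does `a - σ a`, which has fewer nonzero coordinates, so it is `0`: all coordinates of `a` are fixed.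
-/

set_option autoImplicit false

namespace MP_cb3775_ag

open Cardinal

/-- Two algebraically closed fields with equipotent transcendence bases over `R` are isomorphic over
`R`, with a prescribed correspondence of the bases. -/
private theorem aut_bases {R A B : Type} [Field R] [Field A] [Field B] [Algebra R A] [Algebra R B]
    [IsAlgClosed A] [IsAlgClosed B] {ι κ : Type} {v : ι → A} {w : κ → B} (e : ι ≃ κ)
    (hv : IsTranscendenceBasis R v) (hw : IsTranscendenceBasis R w) :
    ∃ t : A ≃+* B, (∀ r : R, t (algebraMap R A r) = algebraMap R B r) ∧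
      ∀ i, t (v i) = w (e i) := by
  let _ := IsAlgClosed.isAlgClosure_of_transcendence_basis v hv
  let _ := IsAlgClosed.isAlgClosure_of_transcendence_basis w hw
  let e' : Algebra.adjoin R (Set.range v) ≃ₐ[R] Algebra.adjoin R (Set.range w) :=
    (hv.1.aevalEquiv.symm.trans (MvPolynomial.renameEquiv R e)).trans hw.1.aevalEquiv
  refine ⟨IsAlgClosure.equivOfEquiv A B e'.toRingEquiv, ?_, ?_⟩
  · intro r
    have h1 : algebraMap R A r = algebraMap (Algebra.adjoin R (Set.range v)) A
        (algebraMap R (Algebra.adjoin R (Set.range v)) r) := rfl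
    rw [h1, IsAlgClosure.equivOfEquiv_algebraMap]
    have h2 : e'.toRingEquiv (algebraMap R (Algebra.adjoin R (Set.range v)) r) =
        algebraMap R (Algebra.adjoin R (Set.range w)) r := e'.commutes r
    rw [h2]
    rfl
  · intro i
    have h1 : v i = algebraMap (Algebra.adjoin R (Set.range v)) A
        (hv.1.aevalEquiv (MvPolynomial.X i)) := by
      rw [AlgebraicIndependent.algebraMap_aevalEquiv, MvPolynomial.aeval_X]
    rw [h1, IsAlgClosure.equivOfEquiv_algebraMap]
    have h2 : e'.toRingEquiv (hv.1.aevalEquiv (MvPolynomial.X i)) =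
        hw.1.aevalEquiv (MvPolynomial.X (e i)) := by
      show hw.1.aevalEquiv (MvPolynomial.renameEquiv R e
        (hv.1.aevalEquiv.symm (hv.1.aevalEquiv (MvPolynomial.X i)))) = _
      rw [AlgEquiv.symm_apply_apply, MvPolynomial.renameEquiv_apply, MvPolynomial.rename_X]
    rw [h2, AlgebraicIndependent.algebraMap_aevalEquiv, MvPolynomial.aeval_X]

private theorem aut_general {R A B : Type} [Field R] [Countable R] [Field A] [Field B] [Algebra R A]
    [Algebra R B] [IsAlgClosed A] [IsAlgClosed B] (hA : ℵ₀ < Cardinal.mk A) (hAB : Cardinal.mk A = Cardinal.mk B) :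
    ∃ t : A ≃+* B, ∀ r : R, t (algebraMap R A r) = algebraMap R B r := by
  obtain ⟨s, hs⟩ := exists_isTranscendenceBasis R A
  obtain ⟨s', hs'⟩ := exists_isTranscendenceBasis R B
  have hR : Cardinal.mk R ≤ ℵ₀ := Cardinal.mk_le_aleph0
  have h1 := IsAlgClosed.cardinal_eq_cardinal_transcendence_basis_of_aleph0_lt' _ hs hR hA
  have h2 := IsAlgClosed.cardinal_eq_cardinal_transcendence_basis_of_aleph0_lt' _ hs' hR (hAB ▸ hA)
  obtain ⟨e⟩ := Cardinal.eq.1 (h1.symm.trans (hAB.trans h2))
  obtain ⟨t, ht, -⟩ := aut_bases e hs hs'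
  exact ⟨t, ht⟩

private theorem aleph0_lt_complex : ℵ₀ < Cardinal.mk ℂ := by
  rw [Cardinal.mk_complex]
  exact Cardinal.aleph0_lt_continuum

/-- Every embedding of a countable subfield of `ℂ` extends to an automorphism of `ℂ`. -/
private theorem exists_aut (K : Subfield ℂ) [Countable K] (τ : K →+* ℂ) :
    ∃ t : ℂ ≃+* ℂ, ∀ x : K, t (x : ℂ) = τ x := by
  obtain ⟨t, ht⟩ := @aut_general K ℂ ℂ _ _ _ _ _ τ.toAlgebra _ _ aleph0_lt_complex rfl
  exact ⟨t, fun x => ht x⟩

/-- The fixed field of the automorphisms of `ℂ` over a countable subfield `K` is `K`. -/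
private theorem exists_aut_ne (K : Subfield ℂ) [Countable K] (x : ℂ) (hx : x ∉ K) :
    ∃ t : ℂ ≃+* ℂ, (∀ y : K, t (y : ℂ) = y) ∧ t x ≠ x := by
  by_cases hal : IsAlgebraic K x
  · have hint : IsIntegral K x := hal.isIntegral
    have hdeg : (minpoly K x).natDegree ≠ 1 := by
      intro h
      obtain ⟨y, hy⟩ := minpoly.natDegree_eq_one_iff.1 h
      apply hx
      rw [← hy]
      exact y.2
    have hsep : (minpoly K x).Separable := (minpoly.irreducible hint).separable
    have hspl : ((minpoly K x).map (algebraMap K ℂ)).Splits := IsAlgClosed.splits _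
    obtain ⟨y, hy, hyx⟩ : ∃ y ∈ (minpoly K x).aroots ℂ, y ≠ x := by
      by_contra hcon
      push Not at hcon
      have h1 : (minpoly K x).aroots ℂ = Multiset.replicate ((minpoly K x).aroots ℂ).card x :=
        Multiset.eq_replicate.2 ⟨rfl, hcon⟩
      have h2 : ((minpoly K x).aroots ℂ).card = (minpoly K x).natDegree := by
        rw [Polynomial.aroots, ← hspl.natDegree_eq_card_roots, Polynomial.natDegree_map]
      have h3 : ((minpoly K x).aroots ℂ).Nodup := Polynomial.nodup_roots (hsep.map)
      have h4 : 0 < (minpoly K x).natDegree := minpoly.natDegree_pos hint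
      have h5 := Multiset.nodup_iff_count_le_one.1 h3 x
      rw [h1, Multiset.count_replicate_self, h2] at h5
      omega
    let φ : IntermediateField.adjoin K {x} →ₐ[K] ℂ :=
      (IntermediateField.algHomAdjoinIntegralEquiv K hint).symm ⟨y, hy⟩
    have hφ : φ (IntermediateField.AdjoinSimple.gen K x) = y :=
      IntermediateField.algHomAdjoinIntegralEquiv_symm_apply_gen K hint ⟨y, hy⟩
    set L : Subfield ℂ := (IntermediateField.adjoin K {x}).toSubfield with hL
    have : Countable L := by
      have hfin : FiniteDimensional K (IntermediateField.adjoin K {x}) :=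
        IntermediateField.adjoin.finiteDimensional hint
      have : Cardinal.mk (IntermediateField.adjoin K {x}) ≤ max (Cardinal.mk K) ℵ₀ :=
        Algebra.IsAlgebraic.cardinalMk_le_max K _
      have h5 : Cardinal.mk K ≤ ℵ₀ := Cardinal.mk_le_aleph0
      exact Cardinal.mk_le_aleph0_iff.1 (this.trans (max_le h5 le_rfl))
    obtain ⟨t, ht⟩ := exists_aut L φ.toRingHom
    refine ⟨t, ?_, ?_⟩
    · intro z
      have hz : (z : ℂ) ∈ L := (IntermediateField.adjoin K {x}).algebraMap_mem z
      have := ht ⟨z, hz⟩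
      rw [show t (z : ℂ) = t ((⟨z, hz⟩ : L) : ℂ) from rfl, this]
      exact φ.commutes z
    · have hxm : x ∈ L := IntermediateField.mem_adjoin_simple_self K x
      have := ht ⟨x, hxm⟩
      rw [show t x = t ((⟨x, hxm⟩ : L) : ℂ) from rfl, this]
      have h6 : φ.toRingHom ⟨x, hxm⟩ = y := hφ
      rw [h6]
      exact hyx
  · have hxt : Transcendental K x := hal
    have hind : AlgebraicIndepOn K id ({x} : Set ℂ) := by
      have := (algebraicIndependent_unique_type_iff (R := K)
        (x := fun i : ({x} : Set ℂ) => (i : ℂ))).2 (by simpa using hxt)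
      exact this
    obtain ⟨s, hxs, hs⟩ := exists_isTranscendenceBasis_superset hind
    have hR : Cardinal.mk K ≤ ℵ₀ := Cardinal.mk_le_aleph0
    have h1 := IsAlgClosed.cardinal_eq_cardinal_transcendence_basis_of_aleph0_lt' _ hs hR
      aleph0_lt_complex
    have hinf : Infinite s := by
      rw [Cardinal.infinite_iff, ← h1]
      exact aleph0_lt_complex.le
    have hxs' : x ∈ s := hxs rfl
    obtain ⟨y, hy⟩ := exists_ne (⟨x, hxs'⟩ : s)
    obtain ⟨t, ht1, ht2⟩ := aut_bases (Equiv.swap (⟨x, hxs'⟩ : s) y) hs hs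
    refine ⟨t, ht1, ?_⟩
    have h2 := ht2 ⟨x, hxs'⟩
    rw [Equiv.swap_apply_left] at h2
    have h3 : t x = (y : ℂ) := h2
    rw [h3]
    intro h4
    exact hy (Subtype.ext h4)

/-- If all automorphisms over `K` fix `x`, then `x ∈ K`. -/
private theorem mem_of_fixed (K : Subfield ℂ) [Countable K] (x : ℂ)
    (h : ∀ t : ℂ ≃+* ℂ, (∀ y : K, t (y : ℂ) = y) → t x = x) : x ∈ K := by
  by_contra hx
  obtain ⟨t, ht, htx⟩ := exists_aut_ne K x hx
  exact htx (h t ht)

/-- A complex number fixed by all automorphisms is rational. -/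
theorem rat_of_fixed {x : ℂ} (h : ∀ t : ℂ ≃+* ℂ, t x = x) : ∃ r : ℚ, (r : ℂ) = x := by
  have hc : Countable (algebraMap ℚ ℂ).fieldRange := by
    have : Countable ((algebraMap ℚ ℂ).fieldRange : Set ℂ) := by
      rw [RingHom.coe_fieldRange]
      exact (Set.countable_range _).to_subtype
    exact this
  obtain ⟨r, hr⟩ := mem_of_fixed (algebraMap ℚ ℂ).fieldRange x fun t _ => h t
  exact ⟨r, by rw [← hr]; rfl⟩

/-- A proper subspace of `ℂ^r` stable under all automorphisms lies in a hyperplane with rational
coefficients. -/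
theorem exists_rat_functional {r : ℕ} (W : Submodule ℂ (Fin r → ℂ)) (hW : W ≠ ⊤)
    (h : ∀ t : ℂ ≃+* ℂ, ∀ w ∈ W, (fun j => t (w j)) ∈ W) :
    ∃ a : Fin r → ℚ, a ≠ 0 ∧ ∀ w ∈ W, ∑ j, (a j : ℂ) * w j = 0 := by
  classical
  have hne : ∃ n : ℕ, ∃ a : Fin r → ℂ, a ≠ 0 ∧ (∀ w ∈ W, ∑ j, a j * w j = 0) ∧
      (Finset.univ.filter fun j => a j ≠ 0).card = n := by
    obtain ⟨f, hf0, hf⟩ := Submodule.exists_le_ker_of_lt_top W (lt_top_iff_ne_top.2 hW)
    refine ⟨_, fun j => f (Pi.single j 1), ?_, ?_, rfl⟩
    · intro h0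
      apply hf0
      refine LinearMap.ext fun w => ?_
      rw [LinearMap.pi_apply_eq_sum_univ f w, LinearMap.zero_apply]
      refine Finset.sum_eq_zero fun j _ => ?_
      have h1 := congrFun h0 j
      simp only [Pi.zero_apply] at h1
      have h2 : (fun i => if j = i then (1 : ℂ) else 0) = Pi.single j 1 := by
        funext i
        by_cases hij : i = j
        · subst hij; simp
        · rw [Pi.single_eq_of_ne hij, if_neg (Ne.symm hij)]
      rw [h2, h1, smul_zero]
    · intro w hw
      have h1 : f w = 0 := hf hw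
      rw [LinearMap.pi_apply_eq_sum_univ f w] at h1
      rw [← h1]
      refine Finset.sum_congr rfl fun j _ => ?_
      have h2 : (fun i => if j = i then (1 : ℂ) else 0) = Pi.single j 1 := by
        funext i
        by_cases hij : i = j
        · subst hij; simp
        · rw [Pi.single_eq_of_ne hij, if_neg (Ne.symm hij)]
      rw [h2, smul_eq_mul, mul_comm]
  obtain ⟨a, ha0, haW, han⟩ := Nat.find_spec hne
  obtain ⟨j0, hj0⟩ := Function.ne_iff.1 ha0
  simp only [Pi.zero_apply] at hj0
  set b : Fin r → ℂ := fun j => (a j0)⁻¹ * a j with hb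
  have hb0 : b j0 = 1 := inv_mul_cancel₀ hj0
  have hbW : ∀ w ∈ W, ∑ j, b j * w j = 0 := by
    intro w hw
    have h1 : ∑ j, b j * w j = (a j0)⁻¹ * ∑ j, a j * w j := by
      rw [Finset.mul_sum]
      exact Finset.sum_congr rfl fun j _ => mul_assoc _ _ _
    rw [h1, haW w hw, mul_zero]
  have hfix : ∀ t : ℂ ≃+* ℂ, ∀ j, t (b j) = b j := by
    intro t
    by_contra hcon
    push Not at hcon
    obtain ⟨j1, hj1⟩ := hcon
    have hlt : (Finset.univ.filter fun j => t (b j) - b j ≠ 0).card < Nat.find hne := by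
      rw [← han]
      refine Finset.card_lt_card ?_
      rw [Finset.ssubset_iff_of_subset]
      · refine ⟨j0, Finset.mem_filter.2 ⟨Finset.mem_univ _, hj0⟩, ?_⟩
        intro hm
        have h2 := (Finset.mem_filter.1 hm).2
        rw [hb0, map_one, sub_self] at h2
        exact h2 rfl
      · intro j hj
        refine Finset.mem_filter.2 ⟨Finset.mem_univ _, fun h0 => ?_⟩
        have h2 := (Finset.mem_filter.1 hj).2
        have h3 : b j = 0 := by rw [hb]; simp only [h0, mul_zero]
        rw [h3, map_zero, sub_zero] at h2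
        exact h2 rfl
    refine Nat.find_min hne hlt ⟨fun j => t (b j) - b j, ?_, ?_, rfl⟩
    · intro h0
      exact hj1 (sub_eq_zero.1 (congrFun h0 j1))
    · intro w hw
      have h1 : ∑ j, t (b j) * w j = 0 := by
        have h2 := hbW _ (h t.symm w hw)
        have h3 := congrArg t h2
        rw [map_sum, map_zero] at h3
        rw [← h3]
        refine Finset.sum_congr rfl fun j _ => ?_
        show t (b j) * w j = t (b j * t.symm (w j))
        rw [map_mul t (b j), RingEquiv.apply_symm_apply]
      have h4 : ∑ j, (t (b j) - b j) * w j = ∑ j, t (b j) * w j - ∑ j, b j * w j := by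
        rw [← Finset.sum_sub_distrib]
        exact Finset.sum_congr rfl fun j _ => sub_mul _ _ _
      rw [h4, h1, hbW w hw, sub_zero]
  choose q hq using fun j => rat_of_fixed fun t => hfix t j
  refine ⟨q, ?_, ?_⟩
  · intro h0
    have h1 := hq j0
    rw [h0, hb0, Pi.zero_apply, Rat.cast_zero] at h1
    exact zero_ne_one h1
  · intro w hw
    rw [← hbW w hw]
    exact Finset.sum_congr rfl fun j _ => by rw [hq j]

end MP_cb3775_ag
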