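import Pool.Agent.Lib.MP_cb3775_ag.E.QGrp

/-!
# The group `exp (span M) ⋊ t^(-p)`

`M j` are integral matrices with entries only between neighbouring weights, commuting with each other.
Facts: `tdiag p t * M j * (tdiag p t)⁻¹ = t • M j`; `X = ∑ c j • M j` is nilpotent, `exp X` is unipotent and its
entries between neighbouring weights are those of `X`; its entries are polynomials with rational
coefficients in the `c j`.
`model_qgroup`: equations (all with rational coefficients, in the entries of `A` and `A⁻¹`; an infinite set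
is allowed): `A a b = 0` if `a ≠ b` and `p b ≤ p a`; `∏ a, (A a a) ^ (m a) = 1` for all `m : Fin N → ℤ` with
`∑ m a * p a = 0` (use `A⁻¹ a a = (A a a)⁻¹` for the negative exponents): these say that
`A a a = t ^ (-p a)` for some `t ≠ 0` (let `g` be the gcd of the `p a`, `∑ k a * p a = g`,
`w = ∏ (A a a) ^ (-k a)`, `A a a = w ^ (-p a / g)`, take `t` with `t ^ g = w`; if all `p a = 0` take `t = 1`);
then with `X a b := A a b * (A⁻¹ b b)` for `p a = p b - 1`, `0` otherwise: `X` lies in the span of the `M j`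
(rational linear equations) and `A a b * A⁻¹ b b = (exp X) a b` (finite sum).
`model_le`: let `G` be a group over `ℚ` containing `h(t) = exp L * t^(-p) * exp (-L)`, `L = ∑ l j • M j`, for all
`t ≠ 0`; `h(t) = exp ((1 - t) L) * t^(-p)`. For an automorphism `τ`: `exp ((1 - t) τL) * t^(-p) ∈ G` for all
`t ≠ 0` (`qgroup_map`), so `exp ((1 - t) (L - τL)) ∈ G`, so `exp (c (L - τL)) ∈ G` for all `c`. Let `W` be the span
of all `l - τ l` in `ℂ^r`; it is stable under automorphisms, all `exp (∑ w j • M j)`, `w ∈ W`, are in `G`. If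
`W ≠ ⊤` there is a rational `a ≠ 0` with `∑ a j (l j - τ l j) = 0` for all `τ`
(`exists_rat_functional`), so `∑ a j l j` is fixed by all `τ`, so rational: excluded by `hl`. So
`exp (∑ c j • M j) ∈ G` for all `c`, and `t^(-p) = exp (-(1 - t) L) * h(t) ∈ G`.
-/

set_option autoImplicit false

namespace MP_cb3775_ag

variable {N r : ℕ}

/-- entries only between neighbouring weights -/
def IsStep (p : Fin N → ℤ) (X : Matrix (Fin N) (Fin N) ℤ) : Prop := ∀ a b, X a b ≠ 0 → p a = p b - 1

/-- `∑ c j • M j` as a complex matrix. -/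
noncomputable def lin (M : Fin r → Matrix (Fin N) (Fin N) ℤ) (c : Fin r → ℂ) :
    Matrix (Fin N) (Fin N) ℂ := ∑ j, c j • zc (M j)

private theorem eExp_zc_step {p : Fin N → ℤ} {M : Fin r → Matrix (Fin N) (Fin N) ℤ}
    (hM : ∀ j, IsStep p (M j)) (c : Fin r → ℂ) :
    ∀ a b, p a ≠ p b - 1 → lin M c a b = 0 := by
  intro a b hab
  unfold lin
  rw [Matrix.sum_apply]
  refine Finset.sum_eq_zero fun j _ => ?_
  have h0 : M j a b = 0 := by
    by_contra hne
    exact hab (hM j a b hne)
  simp [zc, h0]

private theorem eExp_pow {p : Fin N → ℤ} {X : Matrix (Fin N) (Fin N) ℂ}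
    (hX : ∀ a b, p a ≠ p b - 1 → X a b = 0) :
    ∀ (k : ℕ) (a b : Fin N), p a ≠ p b - k → (X ^ k) a b = 0 := by
  intro k
  induction k with
  | zero =>
    intro a b hab
    rw [pow_zero, Matrix.one_apply_ne]
    rintro rfl
    exact hab (by simp)
  | succ k ih =>
    intro a b hab
    rw [pow_succ, Matrix.mul_apply]
    refine Finset.sum_eq_zero fun x _ => ?_
    by_cases h1 : p a = p x - k
    · have h2 : p x ≠ p b - 1 := by
        intro h3
        apply hab
        push_cast
        omega
      rw [hX x b h2, mul_zero]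
    · rw [ih a x h1, zero_mul]

private theorem eExp_apply {p : Fin N → ℤ} {X : Matrix (Fin N) (Fin N) ℂ}
    (hX : ∀ a b, p a ≠ p b - 1 → X a b = 0) (a b : Fin N) :
    NormedSpace.exp X a b = ((((p b - p a).toNat).factorial : ℂ)⁻¹) *
      (X ^ (p b - p a).toNat) a b := by
  classical
  -- a bound for the differences of the weights
  let K : ℕ := (∑ x : Fin N, ∑ y : Fin N, (p y - p x).natAbs) + 1
  have hK : ∀ x y : Fin N, (p y - p x).natAbs < K := by
    intro x y
    have h1 : (p y - p x).natAbs ≤ ∑ y : Fin N, (p y - p x).natAbs :=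
      Finset.single_le_sum (f := fun y => (p y - p x).natAbs) (fun _ _ => Nat.zero_le _)
        (Finset.mem_univ y)
    have h2 : (∑ y : Fin N, (p y - p x).natAbs) ≤ ∑ x : Fin N, ∑ y : Fin N, (p y - p x).natAbs :=
      Finset.single_le_sum (f := fun x => ∑ y : Fin N, (p y - p x).natAbs)
        (fun _ _ => Nat.zero_le _) (Finset.mem_univ x)
    exact Nat.lt_succ_of_le (h1.trans h2)
  have hXK : ∀ k, K ≤ k → X ^ k = 0 := by
    intro k hk
    ext x y
    rw [Matrix.zero_apply]
    refine eExp_pow hX k x y fun h => ?_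
    have := hK x y
    have h2 : p y - p x = k := by omega
    rw [h2] at this
    simp at this
    omega
  have hsum : NormedSpace.exp X = ∑ k ∈ Finset.range K, ((k.factorial : ℂ)⁻¹) • X ^ k := by
    rw [NormedSpace.exp_eq_tsum ℂ]
    exact tsum_eq_sum fun k hk => by
      rw [hXK k (by simpa using hk), smul_zero]
  rw [hsum, Matrix.sum_apply]
  have hmem : (p b - p a).toNat ∈ Finset.range K := by
    rw [Finset.mem_range]
    have := hK a b
    omega
  rw [Finset.sum_eq_single_of_mem _ hmem]
  · rw [Matrix.smul_apply, smul_eq_mul]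
  · intro k _ hk
    rw [Matrix.smul_apply]
    by_cases h : p a = p b - k
    · exfalso
      apply hk
      omega
    · rw [eExp_pow hX k a b h, smul_zero]

theorem exp_lin_add {M : Fin r → Matrix (Fin N) (Fin N) ℤ} (hc : ∀ j k, M j * M k = M k * M j)
    (c d : Fin r → ℂ) :
    NormedSpace.exp (lin M (c + d)) = NormedSpace.exp (lin M c) * NormedSpace.exp (lin M d) := by
  have h1 : lin M (c + d) = lin M c + lin M d := by
    unfold lin
    simp [add_smul, Finset.sum_add_distrib]
  have hz : ∀ j k, zc (M j) * zc (M k) = zc (M k) * zc (M j) := by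
    intro j k
    have h := congrArg (fun A : Matrix (Fin N) (Fin N) ℤ => (Int.castRingHom ℂ).mapMatrix A) (hc j k)
    simp only [map_mul] at h
    exact h
  have h2 : Commute (lin M c) (lin M d) := by
    unfold lin
    refine Commute.sum_left _ _ _ fun j _ => Commute.sum_right _ _ _ fun k _ => ?_
    refine Commute.smul_left (Commute.smul_right ?_ _) _
    exact hz j k
  rw [h1, Matrix.exp_add_of_commute _ _ h2]

theorem exp_lin_unip {p : Fin N → ℤ} {M : Fin r → Matrix (Fin N) (Fin N) ℤ}
    (hM : ∀ j, IsStep p (M j)) (c : Fin r → ℂ) : IsUnip p (NormedSpace.exp (lin M c)) := by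
  intro a b hab
  rw [eExp_apply (eExp_zc_step hM c)]
  have : (p b - p a).toNat = 0 := by omega
  rw [this]
  simp [Matrix.one_apply]

theorem exp_lin_step {p : Fin N → ℤ} {M : Fin r → Matrix (Fin N) (Fin N) ℤ}
    (hM : ∀ j, IsStep p (M j)) (c : Fin r → ℂ) {a b : Fin N} (hab : p a = p b - 1) :
    NormedSpace.exp (lin M c) a b = lin M c a b := by
  rw [eExp_apply (eExp_zc_step hM c)]
  have : (p b - p a).toNat = 1 := by omega
  rw [this]
  simp

/-- the entries of `exp (lin M c)` are polynomials in `c` with rational coefficients. -/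
theorem exp_lin_poly {p : Fin N → ℤ} {M : Fin r → Matrix (Fin N) (Fin N) ℤ}
    (hM : ∀ j, IsStep p (M j)) (a b : Fin N) : ∃ f : MvPolynomial (Fin r) ℚ, ∀ c : Fin r → ℂ,
      NormedSpace.exp (lin M c) a b = MvPolynomial.aeval c f := by
  let Y : Matrix (Fin N) (Fin N) (MvPolynomial (Fin r) ℚ) :=
    ∑ j, (MvPolynomial.X j : MvPolynomial (Fin r) ℚ) • (M j).map (fun m : ℤ => (m : MvPolynomial (Fin r) ℚ))
  refine ⟨MvPolynomial.C ((((p b - p a).toNat).factorial : ℚ)⁻¹) * (Y ^ (p b - p a).toNat) a b,
    fun c => ?_⟩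
  have hY : (MvPolynomial.aeval c).toRingHom.mapMatrix Y = lin M c := by
    ext x y
    simp [Y, lin, zc, Matrix.sum_apply, RingHom.mapMatrix_apply]
  rw [eExp_apply (eExp_zc_step hM c), map_mul, MvPolynomial.aeval_C]
  congr 1
  · simp
  · rw [← hY, ← map_pow]
    rfl

theorem tdiag_exp {p : Fin N → ℤ} {M : Fin r → Matrix (Fin N) (Fin N) ℤ}
    (hM : ∀ j, IsStep p (M j)) (c : Fin r → ℂ) {t : ℂ} (ht : t ≠ 0) :
    tdiag p t * NormedSpace.exp (lin M c) = NormedSpace.exp (lin M (t • c)) * tdiag p t := by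
  have h1 : lin M (t • c) = t • lin M c := by
    unfold lin
    simp [Finset.smul_sum, smul_smul]
  ext a b
  unfold tdiag
  rw [Matrix.diagonal_mul, Matrix.mul_diagonal, eExp_apply (eExp_zc_step hM c),
    eExp_apply (eExp_zc_step hM (t • c)), h1, smul_pow, Matrix.smul_apply, smul_eq_mul]
  by_cases h : p a ≤ p b
  · have h2 : t ^ (-p a) = t ^ (p b - p a).toNat * t ^ (-p b) := by
      rw [← zpow_natCast, ← zpow_add₀ ht]
      congr 1
      omega
    rw [h2]
    ring
  · have h2 : (p b - p a).toNat = 0 := by omega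
    have h3 : a ≠ b := by
      rintro rfl
      exact h le_rfl
    rw [h2]
    simp [Matrix.one_apply_ne h3]

end MP_cb3775_ag
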