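import Pool.Agent.Lib.MP_cb3775_ag.D.Unip

/-!
# Algebraic groups over `ℚ`: automorphisms and conjugation

`qgroup_map`: a polynomial with rational coefficients commutes with automorphisms; `(A.map τ)⁻¹ = A⁻¹.map τ`.
-/

set_option autoImplicit false

namespace MP_cb3775_ag

variable {N : ℕ}

/-- the diagonal matrix with entries `t ^ (- p a)`. -/
noncomputable def tdiag (p : Fin N → ℤ) (t : ℂ) : Matrix (Fin N) (Fin N) ℂ :=
  Matrix.diagonal fun a => t ^ (-p a)

private theorem qg_inv_map (τ : ℂ ≃+* ℂ) {A : Matrix (Fin N) (Fin N) ℂ} (hA : IsUnit A.det) :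
    (A.map τ)⁻¹ = A⁻¹.map τ := by
  apply Matrix.inv_eq_right_inv
  have h : (A * A⁻¹).map τ = A.map τ * A⁻¹.map τ := by
    ext a b
    simp [Matrix.mul_apply, map_sum]
  rw [← h, Matrix.mul_nonsing_inv A hA]
  ext a b
  by_cases hab : a = b
  · subst hab
    simp
  · simp [hab]

theorem qgroup_map {G : Set (Matrix (Fin N) (Fin N) ℂ)} (hG : IsQGroup G) (τ : ℂ ≃+* ℂ)
    {A : Matrix (Fin N) (Fin N) ℂ} (hA : A ∈ G) : A.map τ ∈ G := by
  obtain ⟨⟨T, hT⟩, -⟩ := hG
  rw [hT] at hA ⊢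
  obtain ⟨hdet, hf⟩ := hA
  have hdet' : IsUnit (A.map τ).det := by
    have h := RingEquiv.map_det τ A
    have h2 : (A.map τ).det = τ A.det := h.symm
    rw [h2]
    exact hdet.map τ
  refine ⟨hdet', fun f hfT => ?_⟩
  rw [qg_inv_map τ hdet]
  let g : ℂ →ₐ[ℚ] ℂ := (τ : ℂ →+* ℂ).toRatAlgHom
  have h1 : (Sum.elim (fun c : Fin N × Fin N => (A.map τ) c.1 c.2)
      fun c : Fin N × Fin N => (A⁻¹.map τ) c.1 c.2) =
      fun i => g (Sum.elim (fun c : Fin N × Fin N => A c.1 c.2)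
        (fun c : Fin N × Fin N => A⁻¹ c.1 c.2) i) := by
    funext i
    rcases i with c | c <;> rfl
  rw [h1]
  have h2 := MvPolynomial.comp_aeval
    (fun i => Sum.elim (fun c : Fin N × Fin N => A c.1 c.2)
      (fun c : Fin N × Fin N => A⁻¹ c.1 c.2) i) g
  have h3 := congrArg (fun φ => φ f) h2
  simp only [AlgHom.comp_apply] at h3
  have h4 := hf f hfT
  change MvPolynomial.aeval (fun i => Sum.elim (fun c : Fin N × Fin N => A c.1 c.2)
    (fun c : Fin N × Fin N => A⁻¹ c.1 c.2) i) f = 0 at h4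
  rw [h4, map_zero] at h3
  exact h3.symm

private theorem qg_qc_mul (C D : Matrix (Fin N) (Fin N) ℚ) : qc (C * D) = qc C * qc D := by
  ext a b
  simp [qc, Matrix.mul_apply]

private theorem qg_qc_one : qc (1 : Matrix (Fin N) (Fin N) ℚ) = 1 := by
  ext a b
  by_cases h : a = b
  · subst h; simp [qc]
  · simp [qc, h]

/-- conjugation by a rational matrix -/
theorem qgroup_conj {G : Set (Matrix (Fin N) (Fin N) ℂ)} (hG : IsQGroup G)
    (C : Matrix (Fin N) (Fin N) ℚ) (hC : IsUnit C.det) :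
    IsQGroup {A | (qc C)⁻¹ * A * qc C ∈ G} := by
  have hC1 : qc C * qc C⁻¹ = 1 := by
    rw [← qg_qc_mul, Matrix.mul_nonsing_inv C hC, qg_qc_one]
  have hinv : (qc C)⁻¹ = qc C⁻¹ := Matrix.inv_eq_right_inv hC1
  have hqd : IsUnit (qc C).det := Matrix.isUnit_det_of_right_inverse hC1
  have hc1 : qc C * (qc C)⁻¹ = 1 := Matrix.mul_nonsing_inv _ hqd
  have hc2 : (qc C)⁻¹ * qc C = 1 := Matrix.nonsing_inv_mul _ hqd
  have hmulconj : ∀ A A' : Matrix (Fin N) (Fin N) ℂ, (qc C)⁻¹ * (A * A') * qc C =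
      ((qc C)⁻¹ * A * qc C) * ((qc C)⁻¹ * A' * qc C) := by
    intro A A'
    calc (qc C)⁻¹ * (A * A') * qc C = (qc C)⁻¹ * A * 1 * A' * qc C := by
          simp only [mul_one, mul_assoc]
      _ = _ := by
          rw [← hc1]
          simp only [mul_assoc]
  have hdetconj : ∀ A : Matrix (Fin N) (Fin N) ℂ,
      ((qc C)⁻¹ * A * qc C).det = A.det := by
    intro A
    rw [Matrix.det_mul, Matrix.det_mul, mul_comm, ← mul_assoc, ← Matrix.det_mul, hc1,
      Matrix.det_one, one_mul]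
  have hinvconj : ∀ A : Matrix (Fin N) (Fin N) ℂ, IsUnit A.det →
      ((qc C)⁻¹ * A * qc C)⁻¹ = (qc C)⁻¹ * A⁻¹ * qc C := by
    intro A hA
    apply Matrix.inv_eq_right_inv
    rw [← hmulconj, Matrix.mul_nonsing_inv A hA, mul_one, hc2]
  obtain ⟨⟨T, hT⟩, h1, hmul, hin⟩ := hG
  refine ⟨?_, ?_, ?_, ?_⟩
  · let X : Fin N → Fin N → MvPolynomial ((Fin N × Fin N) ⊕ (Fin N × Fin N)) ℚ :=
      fun a b => ∑ c, ∑ d, MvPolynomial.C (C⁻¹ a c) * MvPolynomial.X (Sum.inl (c, d)) *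
        MvPolynomial.C (C d b)
    let Y : Fin N → Fin N → MvPolynomial ((Fin N × Fin N) ⊕ (Fin N × Fin N)) ℚ :=
      fun a b => ∑ c, ∑ d, MvPolynomial.C (C⁻¹ a c) * MvPolynomial.X (Sum.inr (c, d)) *
        MvPolynomial.C (C d b)
    let σ : (Fin N × Fin N) ⊕ (Fin N × Fin N) →
        MvPolynomial ((Fin N × Fin N) ⊕ (Fin N × Fin N)) ℚ :=
      Sum.elim (fun c => X c.1 c.2) fun c => Y c.1 c.2
    refine ⟨(fun f => MvPolynomial.bind₁ σ f) '' T, ?_⟩
    ext A
    rw [Set.mem_ofPred_eq, hT]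
    constructor
    · rintro ⟨hd, hf⟩
      rw [hdetconj] at hd
      refine ⟨hd, ?_⟩
      rintro _ ⟨f, hfT, rfl⟩
      have h2 := hf f hfT
      rw [hinvconj A hd] at h2
      rw [MvPolynomial.aeval_bind₁]
      rw [← h2]
      congr 2
      funext i
      rcases i with c | c
      · change MvPolynomial.aeval _ (X c.1 c.2) = ((qc C)⁻¹ * A * qc C) c.1 c.2
        rw [hinv]
        simp only [X, map_sum, map_mul, MvPolynomial.aeval_C, MvPolynomial.aeval_X, Sum.elim_inl,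
          Matrix.mul_apply, Finset.sum_mul]
        rw [Finset.sum_comm]
        rfl
      · change MvPolynomial.aeval _ (Y c.1 c.2) = ((qc C)⁻¹ * A⁻¹ * qc C) c.1 c.2
        rw [hinv]
        simp only [Y, map_sum, map_mul, MvPolynomial.aeval_C, MvPolynomial.aeval_X, Sum.elim_inr,
          Matrix.mul_apply, Finset.sum_mul]
        rw [Finset.sum_comm]
        rfl
    · rintro ⟨hd, hf⟩
      refine ⟨by rw [hdetconj]; exact hd, fun f hfT => ?_⟩
      have h2 := hf _ ⟨f, hfT, rfl⟩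
      rw [MvPolynomial.aeval_bind₁] at h2
      rw [hinvconj A hd, ← h2]
      congr 2
      funext i
      rcases i with c | c
      · change ((qc C)⁻¹ * A * qc C) c.1 c.2 = MvPolynomial.aeval _ (X c.1 c.2)
        rw [hinv]
        simp only [X, map_sum, map_mul, MvPolynomial.aeval_C, MvPolynomial.aeval_X, Sum.elim_inl,
          Matrix.mul_apply, Finset.sum_mul]
        rw [Finset.sum_comm]
        rfl
      · change ((qc C)⁻¹ * A⁻¹ * qc C) c.1 c.2 = MvPolynomial.aeval _ (Y c.1 c.2)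
        rw [hinv]
        simp only [Y, map_sum, map_mul, MvPolynomial.aeval_C, MvPolynomial.aeval_X, Sum.elim_inr,
          Matrix.mul_apply, Finset.sum_mul]
        rw [Finset.sum_comm]
        rfl
  · change (qc C)⁻¹ * 1 * qc C ∈ G
    rw [mul_one, hc2]
    exact h1
  · intro A hA A' hA'
    change (qc C)⁻¹ * (A * A') * qc C ∈ G
    rw [hmulconj]
    exact hmul _ hA _ hA'
  · intro A hA
    change (qc C)⁻¹ * A⁻¹ * qc C ∈ G
    have hd : IsUnit A.det := by
      have h2 : (qc C)⁻¹ * A * qc C ∈ G := hA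
      rw [hT] at h2
      rw [← hdetconj A]
      exact h2.1
    rw [← hinvconj A hd]
    exact hin _ hA

end MP_cb3775_ag
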