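import Pool.Agent.Lib.MP_cb3775_ag.D.Per0
import Pool.Agent.Lib.MP_cb3775_ag.E.Aut
import Pool.Agent.Lib.MP_cb3775_ag.E.QGrp

/-!
# The representation of the Deligne torus and rational algebraic groups

`hodgeElt_iff`: `F^k ∩ W_(2k)` is spanned by the columns `b` of `u` with `p b = k`.
`qgroup_map`: a polynomial with rational coefficients commutes with automorphisms.
`cm_rational`: for an automorphism `τ` the matrices `u t^(-p) u⁻¹` and `τu t^(-p) (τu)⁻¹` (all `t ≠ 0`) lie in the
Mumford-Tate group, so they commute; take `t = 2`: `v = u⁻¹ * τu` is unipotent and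
`D = t^(-p)` commutes with `v D v⁻¹`; so `v D v⁻¹` is block diagonal for the weights, and its diagonal blocks
are those of `D`, so `v D v⁻¹ = D`, `v` commutes with `D`, so `v = 1`: `τu = u` for all `τ`, so `u` is
rational by `rat_of_fixed`.
-/

set_option autoImplicit false

namespace MP_cb3775_ag

variable {n N : ℕ} {B : Base n}

private theorem hodge_mem_Wlt {p : Fin N → ℤ} {A : Matrix (Fin N) (Fin N) ℂ} (h : IsUnip p A)
    {k : ℤ} {w : Fin N → ℂ} (hw : w ∈ Wlt p k) : A.mulVec w ∈ Wlt p k := by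
  intro a ha
  have hw' : ∀ a, k ≤ p a → w a = 0 := hw
  rw [Matrix.mulVec, dotProduct]
  refine Finset.sum_eq_zero fun c _ => ?_
  rcases le_or_gt k (p c) with hc | hc
  · rw [hw' c hc, mul_zero]
  · have hne : a ≠ c := by
      rintro rfl
      exact absurd ha (not_le.2 hc)
    rw [h a c (hc.le.trans ha), if_neg hne, zero_mul]

private theorem hodge_two_pow {x y : ℤ} (h : (2 : ℂ) ^ (-x) = 2 ^ (-y)) : x = y := by
  have h2 : ((2 : ℝ) ^ (-x) : ℝ) = 2 ^ (-y) := by
    have := congrArg (fun z : ℂ => ‖z‖) h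
    simpa using this
  have := zpow_right_injective₀ (a := (2 : ℝ)) (by norm_num) (by norm_num) h2
  linarith

/-- A unipotent matrix whose conjugate of `tdiag p 2` commutes with `tdiag p 2` is `1`. -/
private theorem hodge_unip_one {p : Fin N → ℤ} {v : Matrix (Fin N) (Fin N) ℂ} (hv : IsUnip p v)
    (hcomm : tdiag p 2 * (v * tdiag p 2 * v⁻¹) = (v * tdiag p 2 * v⁻¹) * tdiag p 2) : v = 1 := by
  have hdet : IsUnit v.det := by
    rw [isUnip_det hv]
    exact isUnit_one
  have hvi := isUnip_inv hv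
  set D := tdiag p 2 with hD
  -- the conjugate is equal to `D`
  have hC : v * D * v⁻¹ = D := by
    ext a b
    have hab := congrFun (congrFun hcomm a) b
    rw [hD, tdiag, Matrix.diagonal_mul, Matrix.mul_diagonal, ← tdiag, ← hD] at hab
    by_cases hp : p a = p b
    · rw [Matrix.mul_apply, Finset.sum_eq_single b]
      · rw [hD, tdiag, Matrix.mul_diagonal, hvi b b le_rfl, if_pos rfl, mul_one,
          hv a b hp.ge, Matrix.diagonal_apply]
        split_ifs with h
        · rw [h, one_mul]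
        · rw [zero_mul]
      · intro c _ hcb
        rw [hD, tdiag, Matrix.mul_diagonal]
        rcases le_or_gt (p b) (p c) with hc | hc
        · rw [hvi c b hc, if_neg hcb, mul_zero]
        · have hne : a ≠ c := by
            rintro rfl
            omega
          rw [hv a c (by omega), if_neg hne, zero_mul, zero_mul]
      · intro h
        exact absurd (Finset.mem_univ b) h
    · have hne : a ≠ b := by
        rintro rfl
        exact hp rfl
      have h1 : ((2 : ℂ) ^ (-p a) - 2 ^ (-p b)) * (v * D * v⁻¹) a b = 0 := by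
        rw [sub_mul, hab]
        ring
      rcases mul_eq_zero.1 h1 with h | h
      · exact absurd (hodge_two_pow (sub_eq_zero.1 h)) hp
      · rw [h, hD, tdiag, Matrix.diagonal_apply_ne _ hne]
  have hvD : v * D = D * v := by
    have h := congrArg (· * v) hC
    simp only [Matrix.mul_assoc, Matrix.nonsing_inv_mul v hdet, Matrix.mul_one] at h
    exact h
  ext a b
  by_cases hp : p a = p b
  · rw [hv a b hp.ge, Matrix.one_apply]
  · have hne : a ≠ b := by
      rintro rfl
      exact hp rfl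
    have hab := congrFun (congrFun hvD a) b
    rw [hD, tdiag, Matrix.mul_diagonal, Matrix.diagonal_mul] at hab
    have h1 : ((2 : ℂ) ^ (-p a) - 2 ^ (-p b)) * v a b = 0 := by
      rw [sub_mul, ← hab]
      ring
    rcases mul_eq_zero.1 h1 with h | h
    · exact absurd (hodge_two_pow (sub_eq_zero.1 h)) hp
    · rw [h, Matrix.one_apply_ne hne]

private theorem hodge_map_inv {A : Matrix (Fin N) (Fin N) ℂ} (hA : IsUnit A.det) (τ : ℂ ≃+* ℂ) :
    A⁻¹.map τ = (A.map τ)⁻¹ := by
  symm
  refine Matrix.inv_eq_right_inv ?_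
  have h := congrArg (fun M : Matrix (Fin N) (Fin N) ℂ => (τ : ℂ →+* ℂ).mapMatrix M)
    (Matrix.mul_nonsing_inv A hA)
  simp only [map_mul, map_one] at h
  exact h

namespace Variation

variable (V : Variation B N)

theorem hodgeElt_iff {i : V.ι} {s : Pt n} (hs : s ∈ V.U i ∩ B.pts) {t : ℂ} (ht : t ≠ 0)
    (A : Matrix (Fin N) (Fin N) ℂ) :
    V.IsHodgeElt i s t A ↔ A = V.u i s * tdiag V.p t * (V.u i s)⁻¹ := by
  have hu := V.u_unip hs
  set u := V.u i s with hu0
  have hdet : IsUnit u.det := by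
    rw [isUnip_det hu]
    exact isUnit_one
  constructor
  · intro h
    have key : A * u = u * tdiag V.p t := by
      ext a b
      have hmem : (fun a => u a b) ∈ V.F i (V.p b) s ⊓ Wlt V.p (V.p b + 1) := by
        refine Submodule.mem_inf.2 ⟨?_, ?_⟩
        · rw [V.F_eq hs]
          exact col_mem b
        · intro c hc
          have hne : c ≠ b := by
            rintro rfl
            omega
          change u c b = 0
          rw [hu c b (by omega), if_neg hne]
      have h1 := congrFun (h (V.p b) _ hmem) a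
      rw [tdiag, Matrix.mul_diagonal, Matrix.mul_apply]
      rw [Matrix.mulVec, dotProduct, Pi.smul_apply, smul_eq_mul] at h1
      rw [h1, mul_comm]
    rw [← key, Matrix.mul_assoc, Matrix.mul_nonsing_inv u hdet, Matrix.mul_one]
  · rintro rfl k v hv
    obtain ⟨hv1, hv2⟩ := Submodule.mem_inf.1 hv
    rw [V.F_eq hs, act] at hv1
    obtain ⟨w, hw, rfl⟩ := Submodule.mem_map.1 hv1
    rw [Matrix.toLin'_apply] at hv2 ⊢
    have hw1 : ∀ a, V.p a < k → w a = 0 := hw
    have hw2 : w ∈ Wlt V.p (k + 1) := by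
      have h2 := hodge_mem_Wlt (isUnip_inv hu) hv2
      rwa [Matrix.mulVec_mulVec, Matrix.nonsing_inv_mul u hdet, Matrix.one_mulVec] at h2
    have hw3 : ∀ a, k + 1 ≤ V.p a → w a = 0 := hw2
    have h3 : (tdiag V.p t).mulVec w = (t ^ (-k)) • w := by
      ext a
      rw [tdiag, Matrix.mulVec_diagonal, Pi.smul_apply, smul_eq_mul]
      rcases lt_trichotomy (V.p a) k with hlt | heq | hgt
      · rw [hw1 a hlt, mul_zero, mul_zero]
      · rw [heq]
      · rw [hw3 a hgt, mul_zero, mul_zero]
    rw [← hu0, ← Matrix.mulVec_mulVec, Matrix.mulVec_mulVec _ u⁻¹ u, Matrix.nonsing_inv_mul u hdet,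
      Matrix.one_mulVec, ← Matrix.mulVec_mulVec, h3, Matrix.mulVec_smul]

theorem mem_MT_iff {i : V.ι} {s : Pt n} (hs : s ∈ V.U i ∩ B.pts)
    (A : Matrix (Fin N) (Fin N) ℂ) : A ∈ V.MT i s ↔ ∀ G, IsQGroup G →
      (∀ t : ℂ, t ≠ 0 → V.u i s * tdiag V.p t * (V.u i s)⁻¹ ∈ G) → A ∈ G := by
  constructor
  · intro h G hG h1
    refine h G hG fun t ht A' hA' => ?_
    rw [(V.hodgeElt_iff hs ht A').1 hA']
    exact h1 t ht
  · intro h G hG h1
    refine h G hG fun t ht => h1 t ht _ ((V.hodgeElt_iff hs ht _).2 rfl)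

theorem cm_rational {i : V.ι} {s : Pt n} (hs : s ∈ V.U i ∩ B.pts) (h : V.IsCM s) :
    ∃ C : Matrix (Fin N) (Fin N) ℚ, V.u i s = qc C := by
  have hu := V.u_unip hs
  set u := V.u i s with hu0
  have hdet : IsUnit u.det := by
    rw [isUnip_det hu]
    exact isUnit_one
  have hfix : ∀ (τ : ℂ ≃+* ℂ), u.map τ = u := by
    intro τ
    have hτ : IsUnip V.p (u.map τ) := by
      intro a b hab
      rw [Matrix.map_apply, hu a b hab]
      split_ifs
      · exact map_one τ
      · exact map_zero τ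
    have hτdet : IsUnit (u.map τ).det := by
      rw [isUnip_det hτ]
      exact isUnit_one
    have hA : u * tdiag V.p 2 * u⁻¹ ∈ V.MT i s :=
      (V.mem_MT_iff hs _).2 fun G _ h1 => h1 2 two_ne_zero
    have hA' : u.map τ * tdiag V.p 2 * (u.map τ)⁻¹ ∈ V.MT i s := by
      refine (V.mem_MT_iff hs _).2 fun G hG h1 => ?_
      have h2 := qgroup_map hG τ (h1 2 two_ne_zero)
      have h3 : (u * tdiag V.p 2 * u⁻¹).map τ = u.map τ * tdiag V.p 2 * (u.map τ)⁻¹ := by
        have h4 : (u * tdiag V.p 2 * u⁻¹).map τ =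
            u.map τ * (tdiag V.p 2).map τ * (u⁻¹).map τ := by
          have e1 := map_mul (τ : ℂ →+* ℂ).mapMatrix (u * tdiag V.p 2) u⁻¹
          have e2 := map_mul (τ : ℂ →+* ℂ).mapMatrix u (tdiag V.p 2)
          rw [e2] at e1
          exact e1
        have h5 : (tdiag V.p 2 : Matrix (Fin N) (Fin N) ℂ).map τ = tdiag V.p 2 := by
          rw [tdiag, Matrix.diagonal_map (map_zero τ)]
          congr 1
          ext a
          rw [map_zpow₀, map_ofNat]
        rw [h4, h5, hodge_map_inv hdet τ]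
      rw [← h3]
      exact h2
    have hc := (h i hs.1).1 _ hA _ hA'
    -- `v = u⁻¹ * τu`
    set w := u.map τ with hw
    have hv := isUnip_mul (isUnip_inv hu) hτ
    have hvi : (u⁻¹ * w)⁻¹ = w⁻¹ * u := by
      rw [Matrix.mul_inv_rev, Matrix.nonsing_inv_nonsing_inv u hdet]
    have hone := hodge_unip_one hv (by
      rw [hvi]
      have e1 : tdiag V.p 2 * (u⁻¹ * w * tdiag V.p 2 * (w⁻¹ * u)) =
          u⁻¹ * ((u * tdiag V.p 2 * u⁻¹) * (w * tdiag V.p 2 * w⁻¹)) * u := by
        simp only [Matrix.mul_assoc]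
        rw [← Matrix.mul_assoc u⁻¹ u, Matrix.nonsing_inv_mul u hdet, Matrix.one_mul]
      have e2 : u⁻¹ * w * tdiag V.p 2 * (w⁻¹ * u) * tdiag V.p 2 =
          u⁻¹ * ((w * tdiag V.p 2 * w⁻¹) * (u * tdiag V.p 2 * u⁻¹)) * u := by
        simp only [Matrix.mul_assoc]
        rw [Matrix.nonsing_inv_mul u hdet, Matrix.mul_one]
      rw [e1, e2, hc])
    have h6 := congrArg (u * ·) hone
    simp only [← Matrix.mul_assoc, Matrix.mul_nonsing_inv u hdet, Matrix.one_mul,
      Matrix.mul_one] at h6
    exact h6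
  have hrat : ∀ a b, ∃ r : ℚ, (r : ℂ) = u a b := fun a b =>
    rat_of_fixed fun τ => congrFun (congrFun (hfix τ) a) b
  choose C hC using hrat
  refine ⟨Matrix.of C, ?_⟩
  ext a b
  rw [qc, Matrix.map_apply, Matrix.of_apply, hC]

end Variation

end MP_cb3775_ag
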