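import Pool.Agent.Lib.MP_cb3775_ag.E.ModLe
import Pool.Agent.Lib.MP_cb3775_ag.E.Hodge

/-!
# The generic Mumford-Tate group

See the text in `E/Model.lean` for the proof of `model_le`.
`MT_eq`: conjugate by `C` (`qgroup_conj`), then `model_qgroup` for one inclusion and `model_le` for the
other.
-/

set_option autoImplicit false

namespace MP_cb3775_ag

variable {n N r : ℕ} {B : Base n}

private theorem gen_exp_inv {M : Fin r → Matrix (Fin N) (Fin N) ℤ}
    (hc : ∀ j k, M j * M k = M k * M j) (c : Fin r → ℂ) :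
    (NormedSpace.exp (lin M c))⁻¹ = NormedSpace.exp (lin M (-c)) := by
  apply Matrix.inv_eq_right_inv
  rw [← exp_lin_add hc, add_neg_cancel]
  have h : lin M 0 = 0 := by simp [lin]
  rw [h, NormedSpace.exp_zero]

private theorem gen_conj {p : Fin N → ℤ} {M : Fin r → Matrix (Fin N) (Fin N) ℤ}
    (hM : ∀ j, IsStep p (M j)) (hc : ∀ j k, M j * M k = M k * M j) (l : Fin r → ℂ) {t : ℂ}
    (ht : t ≠ 0) :
    NormedSpace.exp (lin M l) * tdiag p t * (NormedSpace.exp (lin M l))⁻¹ =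
      NormedSpace.exp (lin M ((1 - t) • l)) * tdiag p t := by
  rw [gen_exp_inv hc, mul_assoc, tdiag_exp hM _ ht, ← mul_assoc, ← exp_lin_add hc]
  congr 4
  rw [smul_neg, sub_smul, one_smul, sub_eq_add_neg]

private theorem gen_qc_mul (C D : Matrix (Fin N) (Fin N) ℚ) : qc (C * D) = qc C * qc D := by
  ext a b
  simp [qc, Matrix.mul_apply]

private theorem gen_qc_one : qc (1 : Matrix (Fin N) (Fin N) ℚ) = 1 := by
  ext a b
  by_cases h : a = b
  · subst h; simp [qc]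
  · simp [qc, h]

theorem MT_eq (V : Variation B N) {M : Fin r → Matrix (Fin N) (Fin N) ℤ}
    (hM : ∀ j, IsStep V.p (M j)) (hc : ∀ j k, M j * M k = M k * M j) (l : Fin r → ℂ)
    (hl : ∀ a : Fin r → ℚ, a ≠ 0 → ∀ b : ℚ, ∑ j, (a j : ℂ) * l j ≠ (b : ℂ))
    (C : Matrix (Fin N) (Fin N) ℚ) (hC : IsUnip V.p C) {i : V.ι} {s : Pt n}
    (hs : s ∈ V.U i ∩ B.pts) (hu : V.u i s = qc C * NormedSpace.exp (lin M l)) :
    V.MT i s = {A | ∃ A' ∈ model V.p M, A = qc C * A' * (qc C)⁻¹} := by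
  have hCd : IsUnit C.det := by
    rw [isUnip_det hC]
    exact isUnit_one
  have hC1 : C * C⁻¹ = 1 := Matrix.mul_nonsing_inv C hCd
  have hC2 : C⁻¹ * C = 1 := Matrix.nonsing_inv_mul C hCd
  have hq1 : qc C * qc C⁻¹ = 1 := by rw [← gen_qc_mul, hC1, gen_qc_one]
  have hq2 : qc C⁻¹ * qc C = 1 := by rw [← gen_qc_mul, hC2, gen_qc_one]
  have hinv : (qc C)⁻¹ = qc C⁻¹ := Matrix.inv_eq_right_inv hq1
  have hinv' : (qc C⁻¹)⁻¹ = qc C := Matrix.inv_eq_right_inv hq2
  have hCd' : IsUnit (C⁻¹).det := by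
    rw [isUnip_det (isUnip_inv hC)]
    exact isUnit_one
  -- the element of the Deligne torus
  have helt : ∀ t : ℂ, V.u i s * tdiag V.p t * (V.u i s)⁻¹ =
      qc C * (NormedSpace.exp (lin M l) * tdiag V.p t * (NormedSpace.exp (lin M l))⁻¹) *
        (qc C)⁻¹ := by
    intro t
    rw [hu, Matrix.mul_inv_rev]
    simp only [mul_assoc]
  ext A
  rw [V.mem_MT_iff hs, Set.mem_ofPred_eq]
  constructor
  · intro h
    have h1 := h _ (qgroup_conj (model_qgroup hM hc) C hCd) (by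
      intro t ht
      show (qc C)⁻¹ * (V.u i s * tdiag V.p t * (V.u i s)⁻¹) * qc C ∈ model V.p M
      rw [helt, gen_conj hM hc l ht, hinv]
      refine ⟨(1 - t) • l, t, ht, ?_⟩
      rw [mul_assoc, mul_assoc, mul_assoc, hq2, mul_one, ← mul_assoc (qc C⁻¹), hq2, one_mul])
    refine ⟨(qc C)⁻¹ * A * qc C, h1, ?_⟩
    rw [hinv, mul_assoc, mul_assoc, mul_assoc, hq1, mul_one, ← mul_assoc (qc C), hq1, one_mul]
  · rintro ⟨A', hA', rfl⟩ G hG hmem
    have h1 := qgroup_conj hG C⁻¹ hCd'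
    rw [hinv'] at h1
    have h2 := model_le hM hc l hl h1 (by
      intro t ht
      show qc C * (NormedSpace.exp (lin M l) * tdiag V.p t * (NormedSpace.exp (lin M l))⁻¹) *
        qc C⁻¹ ∈ G
      rw [← hinv, ← helt]
      exact hmem t ht)
    have h3 : qc C * A' * qc C⁻¹ ∈ G := h2 hA'
    rw [hinv]
    exact h3

end MP_cb3775_ag
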