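import Pool.Agent.Lib.MP_cb3775_ag.E.Model
import Pool.Agent.Lib.MP_cb3775_ag.E.Aut

/-!
# Groups over `ℚ` which contain a generic conjugate of `t^(-p)`

Proof text: see `E/Exp.lean`.
-/

set_option autoImplicit false

namespace MP_cb3775_ag

variable {N r : ℕ}

private theorem modLe_exp_zero (M : Fin r → Matrix (Fin N) (Fin N) ℤ) :
    NormedSpace.exp (lin M 0) = 1 := by
  have h : lin M 0 = 0 := by simp [lin]
  rw [h, NormedSpace.exp_zero]

private theorem modLe_exp_mul_neg {M : Fin r → Matrix (Fin N) (Fin N) ℤ}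
    (hc : ∀ j k, M j * M k = M k * M j) (c : Fin r → ℂ) :
    NormedSpace.exp (lin M c) * NormedSpace.exp (lin M (-c)) = 1 := by
  rw [← exp_lin_add hc, add_neg_cancel, modLe_exp_zero]

private theorem modLe_exp_inv {M : Fin r → Matrix (Fin N) (Fin N) ℤ}
    (hc : ∀ j k, M j * M k = M k * M j) (c : Fin r → ℂ) :
    (NormedSpace.exp (lin M c))⁻¹ = NormedSpace.exp (lin M (-c)) :=
  Matrix.inv_eq_right_inv (modLe_exp_mul_neg hc c)

private theorem modLe_tdiag_map (p : Fin N → ℤ) (t : ℂ) (τ : ℂ ≃+* ℂ) :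
    (tdiag p t).map τ = tdiag p (τ t) := by
  ext a b
  by_cases hab : a = b
  · subst hab
    simp [tdiag, map_zpow₀]
  · simp [tdiag, hab]

private theorem modLe_exp_map {p : Fin N → ℤ} {M : Fin r → Matrix (Fin N) (Fin N) ℤ}
    (hM : ∀ j, IsStep p (M j)) (c : Fin r → ℂ) (τ : ℂ ≃+* ℂ) :
    (NormedSpace.exp (lin M c)).map τ = NormedSpace.exp (lin M (fun j => τ (c j))) := by
  ext a b
  obtain ⟨f, hf⟩ := exp_lin_poly hM a b
  rw [Matrix.map_apply, hf, hf]
  have h1 : (τ : ℂ →+* ℂ) (MvPolynomial.aeval c f) =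
      MvPolynomial.aeval (fun j => τ (c j)) f := by
    rw [MvPolynomial.aeval_def, MvPolynomial.aeval_def, MvPolynomial.hom_eval₂]
    congr 1
    exact RingHom.ext_rat _ _
  exact h1

private theorem modLe_conj {p : Fin N → ℤ} {M : Fin r → Matrix (Fin N) (Fin N) ℤ}
    (hM : ∀ j, IsStep p (M j)) (hc : ∀ j k, M j * M k = M k * M j) (l : Fin r → ℂ) {t : ℂ}
    (ht : t ≠ 0) :
    NormedSpace.exp (lin M l) * tdiag p t * (NormedSpace.exp (lin M l))⁻¹ =
      NormedSpace.exp (lin M ((1 - t) • l)) * tdiag p t := by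
  rw [modLe_exp_inv hc, mul_assoc, tdiag_exp hM _ ht, ← mul_assoc, ← exp_lin_add hc]
  congr 4
  rw [smul_neg, sub_smul, one_smul, sub_eq_add_neg]

private theorem modLe_tdiag_inv (p : Fin N → ℤ) {t : ℂ} (ht : t ≠ 0) :
    tdiag p t * (tdiag p t)⁻¹ = 1 := by
  apply Matrix.mul_nonsing_inv
  rw [tdiag, Matrix.det_diagonal, isUnit_iff_ne_zero]
  exact Finset.prod_ne_zero_iff.2 fun a _ => zpow_ne_zero _ ht

theorem model_le {p : Fin N → ℤ} {M : Fin r → Matrix (Fin N) (Fin N) ℤ}
    (hM : ∀ j, IsStep p (M j)) (hc : ∀ j k, M j * M k = M k * M j) (l : Fin r → ℂ)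
    (hl : ∀ a : Fin r → ℚ, a ≠ 0 → ∀ b : ℚ, ∑ j, (a j : ℂ) * l j ≠ (b : ℂ))
    {G : Set (Matrix (Fin N) (Fin N) ℂ)} (hG : IsQGroup G)
    (h : ∀ t : ℂ, t ≠ 0 →
      NormedSpace.exp (lin M l) * tdiag p t * (NormedSpace.exp (lin M l))⁻¹ ∈ G) :
    model p M ⊆ G := by
  have hone : (1 : Matrix (Fin N) (Fin N) ℂ) ∈ G := hG.2.1
  have hmul : ∀ A ∈ G, ∀ A' ∈ G, A * A' ∈ G := hG.2.2.1
  have hinv : ∀ A ∈ G, A⁻¹ ∈ G := hG.2.2.2
  -- the element of `G` in the form `exp ((1 - t) l) * t^(-p)`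
  have h1 : ∀ t : ℂ, t ≠ 0 → NormedSpace.exp (lin M ((1 - t) • l)) * tdiag p t ∈ G := by
    intro t ht
    rw [← modLe_conj hM hc l ht]
    exact h t ht
  -- the same for the conjugates of `l`
  have h2 : ∀ (τ : ℂ ≃+* ℂ) (t : ℂ), t ≠ 0 →
      NormedSpace.exp (lin M ((1 - t) • fun j => τ (l j))) * tdiag p t ∈ G := by
    intro τ t ht
    have ht' : τ.symm t ≠ 0 := by
      intro h0
      apply ht
      rw [← τ.apply_symm_apply t, h0, map_zero]
    have h3 := qgroup_map hG τ (h1 (τ.symm t) ht')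
    have h4 : (NormedSpace.exp (lin M ((1 - τ.symm t) • l)) * tdiag p (τ.symm t)).map τ =
        NormedSpace.exp (lin M ((1 - t) • fun j => τ (l j))) * tdiag p t := by
      have h5 : (NormedSpace.exp (lin M ((1 - τ.symm t) • l)) * tdiag p (τ.symm t)).map τ =
          (NormedSpace.exp (lin M ((1 - τ.symm t) • l))).map τ * (tdiag p (τ.symm t)).map τ :=
        Matrix.map_mul (f := (τ : ℂ →+* ℂ))
      rw [h5, modLe_exp_map hM, modLe_tdiag_map, τ.apply_symm_apply]
      congr 4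
      funext j
      simp [τ.apply_symm_apply]
    rw [← h4]
    exact h3
  -- the subspace
  let W : Submodule ℂ (Fin r → ℂ) :=
    { carrier := {w | ∀ c : ℂ, NormedSpace.exp (lin M (c • w)) ∈ G}
      add_mem' := by
        intro w w' hw hw' c
        rw [smul_add, exp_lin_add hc]
        exact hmul _ (hw c) _ (hw' c)
      zero_mem' := by
        intro c
        rw [smul_zero, modLe_exp_zero]
        exact hone
      smul_mem' := by
        intro d w hw c
        rw [smul_smul]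
        exact hw (c * d) }
  have hWmem : ∀ w, w ∈ W ↔ ∀ c : ℂ, NormedSpace.exp (lin M (c • w)) ∈ G := fun w => Iff.rfl
  have hWl : ∀ τ : ℂ ≃+* ℂ, (l - fun j => τ (l j)) ∈ W := by
    intro τ
    rw [hWmem]
    have h3 : ∀ t : ℂ, t ≠ 0 →
        NormedSpace.exp (lin M ((1 - t) • (l - fun j => τ (l j)))) ∈ G := by
      intro t ht
      have h4 := hmul _ (h1 t ht) _ (hinv _ (h2 τ t ht))
      have h5 : NormedSpace.exp (lin M ((1 - t) • l)) * tdiag p t *
          (NormedSpace.exp (lin M ((1 - t) • fun j => τ (l j))) * tdiag p t)⁻¹ =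
          NormedSpace.exp (lin M ((1 - t) • (l - fun j => τ (l j)))) := by
        rw [Matrix.mul_inv_rev, mul_assoc, ← mul_assoc (tdiag p t), modLe_tdiag_inv p ht, one_mul,
          modLe_exp_inv hc, ← exp_lin_add hc]
        congr 3
        rw [smul_sub, ← sub_eq_add_neg]
      rw [← h5]
      exact h4
    intro c
    by_cases hc1 : c = 1
    · have h6 := hmul _ (h3 (-1) (by norm_num)) _ (h3 2 (by norm_num))
      rw [← exp_lin_add hc, ← add_smul] at h6
      have h7 : ((1 : ℂ) - (-1)) + (1 - 2) = c := by rw [hc1]; norm_num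
      rw [h7] at h6
      exact h6
    · have h6 := h3 (1 - c) (sub_ne_zero.2 fun h => hc1 h.symm)
      rw [sub_sub_cancel] at h6
      exact h6
  have hWtop : W = ⊤ := by
    by_contra hW
    obtain ⟨a, ha, haW⟩ := exists_rat_functional W hW (by
      intro σ w hw
      rw [hWmem] at hw ⊢
      intro c
      have h3 := qgroup_map hG σ (hw (σ.symm c))
      rw [modLe_exp_map hM] at h3
      have h4 : (fun j => σ ((σ.symm c • w) j)) = c • fun j => σ (w j) := by
        funext j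
        simp
      rw [h4] at h3
      exact h3)
    obtain ⟨b, hb⟩ := rat_of_fixed (x := ∑ j, (a j : ℂ) * l j) (by
      intro τ
      have h3 := haW _ (hWl τ)
      rw [map_sum]
      have h4 : ∀ j, τ ((a j : ℂ) * l j) = (a j : ℂ) * τ (l j) := by
        intro j
        rw [map_mul, map_ratCast]
      simp only [h4]
      have h5 : ∑ j, (a j : ℂ) * l j - ∑ j, (a j : ℂ) * τ (l j) = 0 := by
        rw [← Finset.sum_sub_distrib, ← h3]
        refine Finset.sum_congr rfl fun j _ => ?_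
        simp [mul_sub]
      exact (sub_eq_zero.1 h5).symm)
    exact hl a ha b hb.symm
  have hexp : ∀ c : Fin r → ℂ, NormedSpace.exp (lin M c) ∈ G := by
    intro c
    have h3 : c ∈ W := by rw [hWtop]; trivial
    have h4 := (hWmem c).1 h3 1
    rwa [one_smul] at h4
  rintro A ⟨c, t, ht, rfl⟩
  have h3 : tdiag p t ∈ G := by
    have h4 := hmul _ (hexp (-((1 - t) • l))) _ (h1 t ht)
    rw [← mul_assoc, ← exp_lin_add hc, neg_add_cancel, modLe_exp_zero, one_mul] at h4
    exact h4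
  exact hmul _ (hexp c) _ h3

end MP_cb3775_ag
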