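import Pool.Agent.Lib.MP_cb3775_ag.E.Exp

/-!
# The group `exp (span M) ⋊ t^(-p)` is algebraic over `ℚ`

Proof text: see `E/Exp.lean`.
-/

set_option autoImplicit false

namespace MP_cb3775_ag

variable {N r : ℕ}

def model (p : Fin N → ℤ) (M : Fin r → Matrix (Fin N) (Fin N) ℤ) :
    Set (Matrix (Fin N) (Fin N) ℂ) :=
  {A | ∃ (c : Fin r → ℂ) (t : ℂ), t ≠ 0 ∧ A = NormedSpace.exp (lin M c) * tdiag p t}

private theorem mdl_exp_zero (M : Fin r → Matrix (Fin N) (Fin N) ℤ) :
    NormedSpace.exp (lin M 0) = 1 := by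
  have h : lin M 0 = 0 := by simp [lin]
  rw [h, NormedSpace.exp_zero]

private theorem mdl_exp_mul_neg {M : Fin r → Matrix (Fin N) (Fin N) ℤ}
    (hc : ∀ j k, M j * M k = M k * M j) (c : Fin r → ℂ) :
    NormedSpace.exp (lin M c) * NormedSpace.exp (lin M (-c)) = 1 := by
  rw [← exp_lin_add hc, add_neg_cancel, mdl_exp_zero]

private theorem mdl_tdiag_one (p : Fin N → ℤ) : tdiag p 1 = 1 := by
  simp [tdiag]

private theorem mdl_tdiag_mul (p : Fin N → ℤ) (t s : ℂ) :
    tdiag p t * tdiag p s = tdiag p (t * s) := by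
  rw [tdiag, tdiag, tdiag, Matrix.diagonal_mul_diagonal]
  congr 1
  funext a
  rw [mul_zpow]

/-- the inverse of an element -/
private theorem mdl_inv {M : Fin r → Matrix (Fin N) (Fin N) ℤ}
    (hc : ∀ j k, M j * M k = M k * M j) (p : Fin N → ℤ) (c : Fin r → ℂ) {t : ℂ} (ht : t ≠ 0) :
    (NormedSpace.exp (lin M c) * tdiag p t) * (tdiag p t⁻¹ * NormedSpace.exp (lin M (-c))) = 1 := by
  rw [mul_assoc, ← mul_assoc (tdiag p t), mdl_tdiag_mul, mul_inv_cancel₀ ht, mdl_tdiag_one, one_mul,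
    mdl_exp_mul_neg hc]

private theorem mdl_one (p : Fin N → ℤ) (M : Fin r → Matrix (Fin N) (Fin N) ℤ) :
    (1 : Matrix (Fin N) (Fin N) ℂ) ∈ model p M :=
  ⟨0, 1, one_ne_zero, by rw [mdl_exp_zero, mdl_tdiag_one, one_mul]⟩

private theorem mdl_mul {p : Fin N → ℤ} {M : Fin r → Matrix (Fin N) (Fin N) ℤ}
    (hM : ∀ j, IsStep p (M j)) (hc : ∀ j k, M j * M k = M k * M j) :
    ∀ A ∈ model p M, ∀ A' ∈ model p M, A * A' ∈ model p M := by
  rintro A ⟨c, t, ht, rfl⟩ A' ⟨d, s, hs, rfl⟩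
  refine ⟨c + t • d, t * s, mul_ne_zero ht hs, ?_⟩
  rw [mul_assoc, ← mul_assoc (tdiag p t), tdiag_exp hM _ ht, exp_lin_add hc, ← mdl_tdiag_mul]
  simp only [mul_assoc]

private theorem mdl_inv_mem {p : Fin N → ℤ} {M : Fin r → Matrix (Fin N) (Fin N) ℤ}
    (hM : ∀ j, IsStep p (M j)) (hc : ∀ j k, M j * M k = M k * M j) :
    ∀ A ∈ model p M, A⁻¹ ∈ model p M := by
  rintro A ⟨c, t, ht, rfl⟩
  refine ⟨t⁻¹ • (-c), t⁻¹, inv_ne_zero ht, ?_⟩
  rw [Matrix.inv_eq_right_inv (mdl_inv hc p c ht), tdiag_exp hM _ (inv_ne_zero ht)]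

/-- the diagonal entries -/
private theorem mdl_diag {p : Fin N → ℤ} {M : Fin r → Matrix (Fin N) (Fin N) ℤ}
    (hM : ∀ j, IsStep p (M j)) (hc : ∀ j k, M j * M k = M k * M j) (c : Fin r → ℂ) {t : ℂ}
    (ht : t ≠ 0) (a : Fin N) :
    (NormedSpace.exp (lin M c) * tdiag p t) a a = t ^ (-p a) ∧
    (NormedSpace.exp (lin M c) * tdiag p t)⁻¹ a a = t ^ (p a) := by
  constructor
  · rw [tdiag, Matrix.mul_diagonal, exp_lin_unip hM c a a le_rfl, if_pos rfl, one_mul]
  · rw [Matrix.inv_eq_right_inv (mdl_inv hc p c ht), tdiag, Matrix.diagonal_mul,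
      exp_lin_unip hM (-c) a a le_rfl, if_pos rfl, mul_one, inv_zpow, zpow_neg, inv_inv]

/-- a linear map defined over the rational numbers which gives coordinates -/
private theorem mdl_coord (M : Fin r → Matrix (Fin N) (Fin N) ℤ) :
    ∃ s : Fin r → Fin N × Fin N → ℚ, ∀ c : Fin r → ℂ,
      lin M (fun j => ∑ x, (s j x : ℂ) * lin M c x.1 x.2) = lin M c := by
  classical
  let MQ : Fin r → (Fin N × Fin N → ℚ) := fun j x => (M j x.1 x.2 : ℚ)
  let L : (Fin r → ℚ) →ₗ[ℚ] (Fin N × Fin N → ℚ) := Fintype.linearCombination ℚ MQ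
  obtain ⟨g, hg⟩ := L.rangeRestrict.exists_rightInverse_of_surjective L.range_rangeRestrict
  obtain ⟨s, hs⟩ := LinearMap.exists_extend g
  have hLs : ∀ c : Fin r → ℚ, L (s (L c)) = L c := by
    intro c
    have h1 : s (L c) = g (L.rangeRestrict c) := by
      rw [← hs]
      rfl
    rw [h1]
    have h2 := congrArg Subtype.val (LinearMap.congr_fun hg (L.rangeRestrict c))
    exact h2
  let E : Fin N × Fin N → (Fin N × Fin N → ℚ) := fun x y => if x = y then 1 else 0
  refine ⟨fun j x => s (E x) j, fun c => ?_⟩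
  have hk : ∀ (k : Fin r) (y : Fin N × Fin N),
      ∑ j, (∑ x, s (E x) j * (M k x.1 x.2 : ℚ)) * (M j y.1 y.2 : ℚ) = (M k y.1 y.2 : ℚ) := by
    intro k y
    have h1 := hLs (Pi.single k 1)
    have h2 : L (Pi.single k 1) = MQ k := by
      simp [L, Fintype.linearCombination_apply_single]
    rw [h2] at h1
    have h3 : ∀ j, s (MQ k) j = ∑ x, s (E x) j * (M k x.1 x.2 : ℚ) := by
      intro j
      rw [LinearMap.pi_apply_eq_sum_univ s (MQ k), Finset.sum_apply]
      refine Finset.sum_congr rfl fun x _ => ?_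
      rw [Pi.smul_apply, smul_eq_mul, mul_comm]
    have h4 := congrFun h1 y
    simp only [L, Fintype.linearCombination_apply, Finset.sum_apply, Pi.smul_apply, smul_eq_mul] at h4
    rw [show (M k y.1 y.2 : ℚ) = MQ k y from rfl, ← h4]
    refine Finset.sum_congr rfl fun j _ => ?_
    rw [← h3 j]
  have hlin : ∀ (d : Fin r → ℂ) (x y : Fin N), lin M d x y = ∑ j, d j * (M j x y : ℂ) := by
    intro d x y
    simp [lin, zc, Matrix.sum_apply]
  ext a b
  rw [hlin, hlin]
  have h5 : ∀ k, ∑ j, (∑ x, (s (E x) j : ℂ) * (M k x.1 x.2 : ℂ)) * (M j a b : ℂ) = (M k a b : ℂ) := by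
    intro k
    have h6 := congrArg (fun q : ℚ => (q : ℂ)) (hk k (a, b))
    simp only at h6
    push_cast at h6
    exact h6
  have h7 : ∀ j, ∑ x, (s (E x) j : ℂ) * lin M c x.1 x.2 =
      ∑ k, c k * ∑ x, (s (E x) j : ℂ) * (M k x.1 x.2 : ℂ) := by
    intro j
    simp only [hlin, Finset.mul_sum]
    rw [Finset.sum_comm]
    refine Finset.sum_congr rfl fun k _ => Finset.sum_congr rfl fun x _ => ?_
    ring
  calc ∑ j, (∑ x, (s (E x) j : ℂ) * lin M c x.1 x.2) * (M j a b : ℂ)
      = ∑ j, ∑ k, c k * ((∑ x, (s (E x) j : ℂ) * (M k x.1 x.2 : ℂ)) * (M j a b : ℂ)) := by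
        refine Finset.sum_congr rfl fun j _ => ?_
        rw [h7, Finset.sum_mul]
        refine Finset.sum_congr rfl fun k _ => ?_
        rw [mul_assoc]
    _ = ∑ k, c k * ∑ j, ((∑ x, (s (E x) j : ℂ) * (M k x.1 x.2 : ℂ)) * (M j a b : ℂ)) := by
        rw [Finset.sum_comm]
        refine Finset.sum_congr rfl fun k _ => ?_
        rw [Finset.mul_sum]
    _ = ∑ k, c k * (M k a b : ℂ) := by
        refine Finset.sum_congr rfl fun k _ => ?_
        rw [h5 k]

private theorem mdl_prod_zpow {t : ℂ} (ht : t ≠ 0) {α : Type} (s : Finset α) (f : α → ℤ) :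
    ∏ a ∈ s, t ^ f a = t ^ ∑ a ∈ s, f a := by
  classical
  induction s using Finset.induction with
  | empty => simp
  | insert a s ha ih => rw [Finset.prod_insert ha, Finset.sum_insert ha, ih, zpow_add₀ ht]

/-- diagonal entries which satisfy all monomial relations -/
private theorem mdl_torus (p : Fin N → ℤ) (d : Fin N → ℂ) (hd : ∀ a, d a ≠ 0)
    (h : ∀ m : Fin N → ℤ, ∑ a, m a * p a = 0 → ∏ a, d a ^ m a = 1) :
    ∃ t : ℂ, t ≠ 0 ∧ ∀ a, d a = t ^ (-p a) := by
  classical
  let g : ℤ := Finset.univ.gcd p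
  have hg : ∀ a, g ∣ p a := fun a => Finset.gcd_dvd (Finset.mem_univ a)
  by_cases hg0 : g = 0
  · have hp : ∀ a, p a = 0 := fun a => by
      have := hg a
      rw [hg0, zero_dvd_iff] at this
      exact this
    refine ⟨1, one_ne_zero, fun a => ?_⟩
    have h1 := h (Pi.single a 1) (by simp [hp])
    rw [Finset.prod_eq_single a] at h1
    · simpa using h1
    · intro b _ hb
      simp [Pi.single_eq_of_ne hb]
    · simp
  · obtain ⟨k, hk⟩ : ∃ k : Fin N → ℤ, ∑ a, k a * p a = g := by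
      obtain ⟨k, hk⟩ := Finset.gcd_eq_sum_mul Finset.univ p
      exact ⟨k, by
        change ∑ a, k a * p a = Finset.univ.gcd p
        rw [hk]
        exact Finset.sum_congr rfl fun a _ => mul_comm _ _⟩
    have hgpos : 0 < g := by
      have h0 : 0 ≤ g := Int.nonneg_of_normalize_eq_self Finset.normalize_gcd
      omega
    let w : ℂ := ∏ a, d a ^ k a
    have hw : w ≠ 0 := Finset.prod_ne_zero_iff.2 fun a _ => zpow_ne_zero _ (hd a)
    obtain ⟨t, ht⟩ := IsAlgClosed.exists_pow_nat_eq w⁻¹ (n := g.toNat) (by omega)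
    have ht0 : t ≠ 0 := by
      rintro rfl
      rw [zero_pow (by omega)] at ht
      exact inv_ne_zero hw ht.symm
    refine ⟨t, ht0, fun a => ?_⟩
    obtain ⟨q, hq⟩ := hg a
    have h1 := h (fun b => (Pi.single a 1 : Fin N → ℤ) b - q * k b) (by
      simp only [sub_mul, Finset.sum_sub_distrib, mul_assoc, ← Finset.mul_sum, hk]
      rw [Finset.sum_eq_single a]
      · rw [Pi.single_eq_same, one_mul, hq]
        ring
      · intro b _ hb
        rw [Pi.single_eq_of_ne hb, zero_mul]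
      · simp)
    have h2 : ∏ b, d b ^ ((Pi.single a 1 : Fin N → ℤ) b - q * k b) = d a * (w ^ q)⁻¹ := by
      have h3 : ∀ b, d b ^ ((Pi.single a 1 : Fin N → ℤ) b - q * k b) =
          d b ^ ((Pi.single a 1 : Fin N → ℤ) b) * ((d b ^ k b) ^ q)⁻¹ := by
        intro b
        rw [sub_eq_add_neg, zpow_add₀ (hd b), zpow_neg, mul_comm q, zpow_mul]
      rw [Finset.prod_congr rfl fun b _ => h3 b, Finset.prod_mul_distrib, Finset.prod_inv_distrib,
        Finset.prod_zpow]
      congr 1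
      rw [Finset.prod_eq_single a]
      · simp
      · intro b _ hb
        rw [Pi.single_eq_of_ne hb, zpow_zero]
      · simp
    rw [h2] at h1
    have h4 : d a = w ^ q := by
      have := zpow_ne_zero q hw
      field_simp at h1
      exact h1
    have h5 : w = t ^ (-g) := by
      rw [zpow_neg, ← inv_eq_iff_eq_inv, ← ht, ← zpow_natCast]
      congr 1
      omega
    rw [h4, h5, ← zpow_mul, hq]
    congr 1
    ring

theorem model_qgroup {p : Fin N → ℤ} {M : Fin r → Matrix (Fin N) (Fin N) ℤ}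
    (hM : ∀ j, IsStep p (M j)) (hc : ∀ j k, M j * M k = M k * M j) : IsQGroup (model p M) := by
  classical
  refine ⟨⟨{f | ∀ A ∈ model p M,
    MvPolynomial.aeval (Sum.elim (fun c => A c.1 c.2) fun c => A⁻¹ c.1 c.2) f = 0}, ?_⟩,
    mdl_one p M, mdl_mul hM hc, mdl_inv_mem hM hc⟩
  ext A
  constructor
  · intro hA
    refine ⟨?_, fun f hf => hf A hA⟩
    obtain ⟨c, t, ht, rfl⟩ := hA
    exact Matrix.isUnit_det_of_right_inverse (mdl_inv hc p c ht)
  · rintro ⟨hdet, hA⟩
    obtain ⟨s, hs⟩ := mdl_coord M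
    choose F hF using fun a b => exp_lin_poly hM a b
    -- the entries of `A * t^p`
    let Bp : Fin N → Fin N → MvPolynomial ((Fin N × Fin N) ⊕ (Fin N × Fin N)) ℚ := fun a b =>
      MvPolynomial.X (Sum.inl (a, b)) * MvPolynomial.X (Sum.inr (b, b))
    let Cp : Fin r → MvPolynomial ((Fin N × Fin N) ⊕ (Fin N × Fin N)) ℚ := fun j =>
      ∑ x : Fin N × Fin N, MvPolynomial.C (s j x) * (if p x.1 = p x.2 - 1 then Bp x.1 x.2 else 0)
    have hBp : ∀ (A : Matrix (Fin N) (Fin N) ℂ) (a b : Fin N),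
        MvPolynomial.aeval (Sum.elim (fun c => A c.1 c.2) fun c => A⁻¹ c.1 c.2) (Bp a b) =
          A a b * A⁻¹ b b := by
      intro A a b
      simp [Bp]
    have hCp : ∀ (A : Matrix (Fin N) (Fin N) ℂ) (j : Fin r),
        MvPolynomial.aeval (Sum.elim (fun c => A c.1 c.2) fun c => A⁻¹ c.1 c.2) (Cp j) =
          ∑ x : Fin N × Fin N, (s j x : ℂ) * (if p x.1 = p x.2 - 1 then A x.1 x.2 * A⁻¹ x.2 x.2 else 0) := by
      intro A j
      simp only [Cp, map_sum, map_mul]
      refine Finset.sum_congr rfl fun x _ => ?_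
      congr 1
      · simp
      · split_ifs
        · exact hBp A x.1 x.2
        · simp
    have hP : ∀ a b, (Bp a b - MvPolynomial.bind₁ Cp (F a b)) ∈ {f | ∀ A ∈ model p M,
        MvPolynomial.aeval (Sum.elim (fun c => A c.1 c.2) fun c => A⁻¹ c.1 c.2) f = 0} := by
      rintro a b A ⟨c, t, ht, rfl⟩
      have h1 : ∀ x y, (NormedSpace.exp (lin M c) * tdiag p t) x y *
          (NormedSpace.exp (lin M c) * tdiag p t)⁻¹ y y = NormedSpace.exp (lin M c) x y := by
        intro x y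
        rw [(mdl_diag hM hc c ht y).2, tdiag, Matrix.mul_diagonal, mul_assoc, ← zpow_add₀ ht,
          neg_add_cancel, zpow_zero, mul_one]
      have h2 : ∀ x : Fin N × Fin N, (if p x.1 = p x.2 - 1 then
          (NormedSpace.exp (lin M c) * tdiag p t) x.1 x.2 *
          (NormedSpace.exp (lin M c) * tdiag p t)⁻¹ x.2 x.2 else 0) = lin M c x.1 x.2 := by
        intro x
        split_ifs with hx
        · rw [h1, exp_lin_step hM c hx]
        · symm
          unfold lin
          rw [Matrix.sum_apply]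
          refine Finset.sum_eq_zero fun j _ => ?_
          have h0 : M j x.1 x.2 = 0 := by
            by_contra hne
            exact hx (hM j x.1 x.2 hne)
          simp [zc, h0]
      rw [map_sub, hBp, h1, MvPolynomial.aeval_bind₁]
      simp only [hCp, h2]
      rw [← hF, hs, sub_self]
    have hP' : ∀ a b, A a b * A⁻¹ b b = NormedSpace.exp (lin M (fun j =>
        ∑ x : Fin N × Fin N, (s j x : ℂ) * (if p x.1 = p x.2 - 1 then A x.1 x.2 * A⁻¹ x.2 x.2 else 0))) a b := by
      intro a b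
      have h1 := hA _ (hP a b)
      rw [map_sub, hBp, MvPolynomial.aeval_bind₁, sub_eq_zero] at h1
      simp only [hCp] at h1
      rw [h1, hF]
    have hdiag : ∀ a, A a a * A⁻¹ a a = 1 := by
      intro a
      rw [hP', exp_lin_unip hM _ a a le_rfl, if_pos rfl]
    have hd0 : ∀ a, A a a ≠ 0 := by
      intro a h0
      have := hdiag a
      rw [h0, zero_mul] at this
      exact zero_ne_one this
    have hinv : ∀ a, A⁻¹ a a = (A a a)⁻¹ := fun a => eq_inv_of_mul_eq_one_right (hdiag a)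
    have hmon : ∀ m : Fin N → ℤ, ∑ a, m a * p a = 0 → ∏ a, A a a ^ m a = 1 := by
      intro m hm
      have h1 := hA (∏ a, (MvPolynomial.X (Sum.inl (a, a)) ^ (m a).toNat *
        MvPolynomial.X (Sum.inr (a, a)) ^ (-m a).toNat) - 1) (by
        rintro B ⟨c, t, ht, rfl⟩
        rw [map_sub, map_prod, map_one, sub_eq_zero]
        simp only [map_mul, map_pow, MvPolynomial.aeval_X, Sum.elim_inl, Sum.elim_inr,
          (mdl_diag hM hc c ht _).1, (mdl_diag hM hc c ht _).2]
        have h2 : ∀ a, (t ^ (-p a)) ^ (m a).toNat * (t ^ (p a)) ^ (-m a).toNat = t ^ (-(m a * p a)) := by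
          intro a
          rw [← zpow_natCast, ← zpow_natCast, ← zpow_mul, ← zpow_mul, ← zpow_add₀ ht]
          congr 1
          have h3 : (((m a).toNat : ℤ) - ((-m a).toNat : ℤ)) = m a := by omega
          linear_combination (-(p a)) * h3
        rw [Finset.prod_congr rfl fun a _ => h2 a, mdl_prod_zpow ht, Finset.sum_neg_distrib, hm,
          neg_zero, zpow_zero])
      rw [map_sub, map_prod, map_one, sub_eq_zero] at h1
      simp only [map_mul, map_pow, MvPolynomial.aeval_X, Sum.elim_inl, Sum.elim_inr, hinv] at h1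
      rw [← h1]
      refine Finset.prod_congr rfl fun a _ => ?_
      rw [inv_pow, ← zpow_natCast, ← zpow_natCast, ← zpow_neg, ← zpow_add₀ (hd0 a)]
      congr 1
      omega
    obtain ⟨t, ht, hta⟩ := mdl_torus p (fun a => A a a) hd0 hmon
    refine ⟨fun j => ∑ x : Fin N × Fin N,
      (s j x : ℂ) * (if p x.1 = p x.2 - 1 then A x.1 x.2 * A⁻¹ x.2 x.2 else 0), t, ht, ?_⟩
    ext a b
    rw [tdiag, Matrix.mul_diagonal, ← hP' a b, ← hta b, mul_assoc, mul_comm (A⁻¹ b b), hdiag, mul_one]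

end MP_cb3775_ag
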